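import Pool.Agent.Y33.SM.Stm
import Pool.Agent.TH54.BU.Angle
import Pool.Agent.TH54.BU.FamLS

/-! Job SM-COMA: lifting commutation with torsion elements. -/

set_option autoImplicit false

namespace Pool.Agent.Y195.SM.Coma

open Pool.Agent.TH54.BU Pool.Agent.Y33.SM

variable {G : Type} [Group G]

/-- minimal elements run along at most half of a relator -/
theorem min_s {w : GH G} {κ n : ℕ} {F : GH G} {L : LS F 1100 234003 2} {X : Set G}
    {M : Subgroup G} (C : Ctx w κ n L X M) {g : G} (hg : ∀ m ∈ M, F.len g ≤ F.len (m * g))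
    (i : L.ι) (u : G) : 2 * |L.s i u 1 g| < (n : ℤ) + 4402 := by
  by_contra hcon
  push Not at hcon
  obtain ⟨k, hk⟩ := L.shorten 0 (n := n) (i := i) (u := u) (p := 1) (q := g)
    (by have := C.hn; omega) (by push_cast; linarith)
  have h1 := hg (L.rt i u (n * k)) (C.fil.rot i u k)
  rw [F.d_one, F.d_one] at hk
  omega

variable {F : GH G} {c θ T : ℕ} (L : LS F c θ T)

theorem near_pr (i : L.ι) (u p : G) (k : ℤ) :
    F.d p (L.pr i u p) ≤ F.d p (u * L.x i ^ k) := by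
  have h := L.near i (u⁻¹ * p) k
  have e : ∀ j : ℤ, F.d (u⁻¹ * p) (L.x i ^ j) = F.d p (u * L.x i ^ j) := by
    intro j
    rw [← F.d_mul u (u⁻¹ * p), mul_inv_cancel_left]
  rw [e, e] at h
  exact h

theorem D_line (i : L.ι) (u : G) (a b : ℤ) :
    L.D i u (u * L.x i ^ a) (u * L.x i ^ b) = F.len (L.x i ^ (b - a)) := by
  have h : L.s i u (u * L.x i ^ a) (u * L.x i ^ b) = b - a := by
    rw [L.az_s_line, inv_mul_cancel_left]
    have h1 := L.shift i a 1
    rw [mul_one, L.az_kappa_one] at h1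
    rw [h1]
    ring
  unfold LS.D
  rw [h]

/-- a point of the line at distance about `R` from the end of the overlap -/
theorem endpt (i : L.ι) (u g : G) (R : ℕ) (h : c < L.D i u 1 g) (hR : R ≤ L.D i u 1 g) :
    ∃ j : ℤ, R ≤ L.D i u (L.pr i u g) (u * L.x i ^ j) ∧
      L.D i u (L.pr i u g) (u * L.x i ^ j) ≤ R + c ∧
      F.d 1 (u * L.x i ^ j) + F.d (u * L.x i ^ j) g ≤ F.d 1 g + 2 * c ∧
      F.d (u * L.x i ^ j) g ≤ F.d (L.pr i u g) g + (R + c) ∧
      F.d (L.pr i u g) g + R ≤ F.d (u * L.x i ^ j) g + 2 * c := by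
  have h1 := L.D_proj i u 1 g h
  obtain ⟨k3, b1, b2, b3⟩ := L.az_step i (L.κ i (u⁻¹ * 1)) (L.κ i (u⁻¹ * g)) R hR
  refine ⟨k3, ?_⟩
  have e12 : L.D i u 1 g = F.len (L.x i ^ (L.κ i (u⁻¹ * g) - L.κ i (u⁻¹ * 1))) := rfl
  have hd : ∀ a b : ℤ, F.d (u * L.x i ^ a) (u * L.x i ^ b) = F.len (L.x i ^ (b - a)) := by
    intro a b
    rw [F.d_mul]
    unfold GH.d
    rw [← zpow_neg, ← zpow_add]
    congr 2
    ring
  have d32 : F.d (u * L.x i ^ k3) (L.pr i u g) = F.len (L.x i ^ (L.κ i (u⁻¹ * g) - k3)) := hd _ _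
  have d13 : F.d (L.pr i u 1) (u * L.x i ^ k3) = F.len (L.x i ^ (k3 - L.κ i (u⁻¹ * 1))) :=
    hd _ _
  have D1 : L.D i u (L.pr i u g) (u * L.x i ^ k3) = F.len (L.x i ^ (L.κ i (u⁻¹ * g) - k3)) := by
    have := D_line L i u (L.κ i (u⁻¹ * g)) k3
    rw [show k3 - L.κ i (u⁻¹ * g) = -(L.κ i (u⁻¹ * g) - k3) by ring, zpow_neg, F.len_inv] at this
    exact this
  rw [F.d_comm g (L.pr i u g)] at h1
  have t1 := F.d_tri 1 (L.pr i u 1) (u * L.x i ^ k3)
  have t2 := F.d_tri (u * L.x i ^ k3) (L.pr i u g) g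
  have t3 := F.d_tri 1 (u * L.x i ^ k3) g
  rw [D1]
  refine ⟨b1, b2, by omega, by omega, by omega⟩

theorem ovl2 (i : L.ι) (u u' g : G) (e : ℕ) (h : c < L.D i u 1 g)
    (hR : θ + 100 * (F.D + c + e + 1) ≤ L.D i u 1 g) (h' : c < L.D i u' 1 g)
    (hR' : θ + 100 * (F.D + c + e + 1) ≤ L.D i u' 1 g)
    (h1 : F.d g (L.pr i u g) ≤ F.d g (L.pr i u' g) + e)
    (h2 : F.d g (L.pr i u' g) ≤ F.d g (L.pr i u g) + e) :
    u⁻¹ * u' ∈ Subgroup.zpowers (L.x i) := by
  by_contra hne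
  obtain ⟨j, a1, a2, a3, a4, a5⟩ := endpt L i u g _ h hR
  obtain ⟨j', a1', a2', a3', a4', a5'⟩ := endpt L i u' g _ h' hR'
  set R := θ + 100 * (F.D + c + e + 1) with hRdef
  have p1 := L.D_proj i u 1 g h
  have p2 := L.D_proj i u' 1 g h'
  have q1 := F.d_tri 1 (L.pr i u 1) (L.pr i u g)
  have q2 := F.d_tri 1 (L.pr i u' 1) (L.pr i u' g)
  rw [L.d_pr_pr] at q1 q2
  have o1 := F.d_comm g (L.pr i u g)
  have o2 := F.d_comm g (L.pr i u' g)
  have r1 : F.d 1 (L.pr i u g) + F.d (L.pr i u g) g ≤ F.d 1 g + c := by omega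
  have r2 : F.d 1 (L.pr i u' g) + F.d (L.pr i u' g) g ≤ F.d 1 g + c := by omega
  have n1 := F.nr r1 r2
  have n2 := F.nr a3 a3'
  have s1 := F.d_tri 1 (L.pr i u g) g
  have s2 := F.d_tri 1 (L.pr i u' g) g
  have s3 := F.d_tri 1 (u * L.x i ^ j) g
  have s4 := F.d_tri 1 (u' * L.x i ^ j') g
  have m1 : F.d (L.pr i u g) (L.pr i u' g) ≤ e + 2 * c + F.D := by omega
  have m2 : F.d (u * L.x i ^ j) (u' * L.x i ^ j') ≤ e + 10 * c + F.D := by omega
  have l1 := L.az_lip i u (L.pr i u g) (L.pr i u' g)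
  have l2 := L.az_lip i u (u * L.x i ^ j) (u' * L.x i ^ j')
  have ov := L.wf_ov (i := i) (j := i) (u := u) (w := u') (fun _ => hne)
    (L.κ i (u'⁻¹ * g)) j'
  have ov' : L.D i u (L.pr i u' g) (u' * L.x i ^ j') ≤ θ := ov
  have v1 := L.wf_D_tri i u (L.pr i u g) (L.pr i u' g) (u * L.x i ^ j)
  have v2 := L.wf_D_tri i u (L.pr i u' g) (u' * L.x i ^ j') (u * L.x i ^ j)
  rw [L.wf_D_symm i u (u * L.x i ^ j) (u' * L.x i ^ j')] at v2
  omega

end Pool.Agent.Y195.SM.Coma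

namespace Pool.Agent.Y195.SM.Coma

open Pool.Agent.TH54.BU Pool.Agent.Y33.SM

/-- the displacement is controlled by the distance -/
theorem s_le {G : Type} [Group G] {F : GH G} (L : LS F 1100 234003 2) (i : L.ι) (u p q : G) :
    |L.s i u p q| ≤ 2 * ((F.d p q : ℤ) + 1100) := by
  have h1 := L.wf_lin_z i (L.s i u p q)
  have h2 : F.len (L.x i ^ L.s i u p q) ≤ F.d p q + 1100 := L.az_lip i u p q
  rw [Int.abs_eq_natAbs]
  omega

theorem t : S_COMA := by
  intro G _ w κ n F L X M C a g ha hcom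
  have hN := C.fil.normal
  -- a short conjugate of `a`
  obtain ⟨p, -, hp⟩ := cl_min (fun _ : G => True) (fun p => F.len (p⁻¹ * a * p)) ⟨1, trivial⟩
  set b := p⁻¹ * a * p with hb
  have hbf : IsOfFinOrder b := by
    have h1 := (MulAut.conj p⁻¹).toMonoidHom.isOfFinOrder ha
    have e : (MulAut.conj p⁻¹).toMonoidHom a = b := by
      simp [hb]
    rwa [e] at h1
  have hbC : F.CMin b := by
    intro v
    have := hp (p * v) trivial
    rwa [show (p * v)⁻¹ * a * (p * v) = v⁻¹ * b * v by rw [hb]; group] at this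
  have hbl : F.len b ≤ 19 := by
    by_contra hcon
    exact (F.sup_of_cmin hbC (by rw [C.FD]; omega)).2 hbf
  set g' := p⁻¹ * g * p with hg'
  have hcom' : b * g' * b⁻¹ * g'⁻¹ ∈ M := by
    have h1 := hN.conj_mem _ hcom p⁻¹
    have e : p⁻¹ * (a * g * a⁻¹ * g⁻¹) * p⁻¹⁻¹ = b * g' * b⁻¹ * g'⁻¹ := by
      rw [hb, hg']; group
    rwa [e] at h1
  -- the shortest representative
  obtain ⟨k, hkM, hk⟩ := cl_min (fun k : G => k ∈ M) (fun k => F.len (k * g')) ⟨1, M.one_mem⟩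
  set g1 := k * g' with hg1
  have hmin : ∀ m ∈ M, F.len g1 ≤ F.len (m * g1) := by
    intro m hm
    have := hk (m * k) (M.mul_mem hm hkM)
    rwa [mul_assoc] at this
  set m := g1 * b * g1⁻¹ * b⁻¹ with hm
  have hmM : m ∈ M := by
    have e : ((b : G) : G ⧸ M) * (g' : G ⧸ M) * (b : G ⧸ M)⁻¹ * (g' : G ⧸ M)⁻¹ = 1 := by
      rw [← QuotientGroup.mk_mul, ← QuotientGroup.mk_inv, ← QuotientGroup.mk_mul,
        ← QuotientGroup.mk_inv, ← QuotientGroup.mk_mul, QuotientGroup.eq_one_iff]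
      exact hcom'
    have e2 : ((k : G) : G ⧸ M) = 1 := (QuotientGroup.eq_one_iff k).2 hkM
    have e3 : ((b : G) : G ⧸ M) * (g' : G ⧸ M) = (g' : G ⧸ M) * (b : G ⧸ M) := by
      rw [mul_inv_eq_one, mul_inv_eq_iff_eq_mul] at e
      exact e
    rw [← QuotientGroup.eq_one_iff (N := M), hm, hg1]
    simp only [QuotientGroup.mk_mul, QuotientGroup.mk_inv, e2, one_mul]
    rw [← e3]
    group
  have hmb : m * b * g1 = g1 * b := by rw [hm]; group
  by_cases hm1 : m = 1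
  · refine ⟨p * k * p⁻¹, hN.conj_mem k hkM p, ?_⟩
    have h1 : b * g1 = g1 * b := by
      have := hmb
      rw [hm1, one_mul] at this
      exact this
    have e1 : a = p * b * p⁻¹ := by rw [hb]; group
    have e2 : p * k * p⁻¹ * g = p * g1 * p⁻¹ := by rw [hg1, hg']; group
    rw [e2, e1]
    calc p * b * p⁻¹ * (p * g1 * p⁻¹) = p * (b * g1) * p⁻¹ := by group
      _ = p * (g1 * b) * p⁻¹ := by rw [h1]
      _ = p * g1 * p⁻¹ * (p * b * p⁻¹) := by group
  exfalso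
  obtain ⟨i, u, hgr⟩ := C.fil.gr m hmM hm1 1
  have hthr : L.thr = 472408 := rfl
  rw [mul_one, hthr] at hgr
  push_cast at hgr
  have hn : (10 : ℤ) ^ 12 ≤ n := by exact_mod_cast C.hn
  set u' := (m * b)⁻¹ * u with hu'
  have huu : u = m * b * u' := by rw [hu']; group
  set A := L.s i u 1 g1 with hA
  set B := L.s i u' 1 g1 with hB
  have h1 : |A| * 2 < (n : ℤ) + 4402 := by
    have := min_s C hmin i u
    linarith
  have h2 : |B| * 2 < (n : ℤ) + 4402 := by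
    have := min_s C hmin i u'
    linarith
  have d1 : F.d g1 (g1 * b) = F.len b := by unfold GH.d; congr 1; group
  have d2 : F.d (m * b) m = F.len b := by
    unfold GH.d
    rw [← F.len_inv b]
    congr 1
    group
  have h3 := s_le L i u g1 (g1 * b)
  have h4 := s_le L i u (m * b) m
  rw [d1] at h3
  rw [d2] at h4
  have hbl' : (F.len b : ℤ) ≤ 19 := by exact_mod_cast hbl
  have h5 : L.s i u (g1 * b) (m * b) = -B := by
    rw [← hmb, huu]
    have := L.wf_s_mul i (m * b) u' g1 1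
    rw [mul_one] at this
    rw [this, L.wf_s_symm]
  have hsum : L.s i u 1 m = A + L.s i u g1 (g1 * b) + (-B) + L.s i u (m * b) m := by
    rw [← h5, L.wf_s_add, L.wf_s_add, L.wf_s_add]
  have hne : u⁻¹ * u' ∉ Subgroup.zpowers (L.x i) := by
    intro hmem
    have h6 : A = B := L.wf_s_congr i (QuotientGroup.eq.2 hmem) 1 g1
    rw [hsum, h6] at hgr
    have : |B + L.s i u g1 (g1 * b) + -B + L.s i u (m * b) m| ≤
        |L.s i u g1 (g1 * b)| + |L.s i u (m * b) m| := by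
      have : B + L.s i u g1 (g1 * b) + -B + L.s i u (m * b) m =
        L.s i u g1 (g1 * b) + L.s i u (m * b) m := by ring
      rw [this]
      exact abs_add_le _ _
    linarith
  have habs : |L.s i u 1 m| ≤ |A| + |L.s i u g1 (g1 * b)| + |B| + |L.s i u (m * b) m| := by
    rw [hsum]
    have a1 := abs_add_le (A + L.s i u g1 (g1 * b) + -B) (L.s i u (m * b) m)
    have a2 := abs_add_le (A + L.s i u g1 (g1 * b)) (-B)
    have a3 := abs_add_le A (L.s i u g1 (g1 * b))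
    rw [abs_neg] at a2
    linarith
  have hAb : 10 ^ 11 < |A| := by linarith
  have hBb : 10 ^ 11 < |B| := by linarith
  have hDA : 10 ^ 10 ≤ L.D i u 1 g1 := by
    refine L.cl_D_ge i u 1 g1 _ ?_
    rw [Int.abs_eq_natAbs] at hAb
    omega
  have hDB : 10 ^ 10 ≤ L.D i u' 1 g1 := by
    refine L.cl_D_ge i u' 1 g1 _ ?_
    rw [Int.abs_eq_natAbs] at hBb
    omega
  apply hne
  refine ovl2 L i u u' g1 19 (by omega) (by rw [C.FD]; omega) (by omega) (by rw [C.FD]; omega)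
    ?_ ?_
  · -- distance to `l`
    have n1 := near_pr L i u g1 (L.κ i (u'⁻¹ * g1))
    have n2 : F.d g1 (u * L.x i ^ (L.κ i (u'⁻¹ * g1))) ≤
        F.d g1 (g1 * b) + F.d (g1 * b) (u * L.x i ^ (L.κ i (u'⁻¹ * g1))) := F.d_tri _ _ _
    have n3 : F.d (g1 * b) (u * L.x i ^ (L.κ i (u'⁻¹ * g1))) = F.d g1 (L.pr i u' g1) := by
      rw [← hmb, huu]
      unfold LS.pr
      rw [mul_assoc (m * b) u', F.d_mul]
    omega
  · have n1 := near_pr L i u' g1 (L.κ i (u⁻¹ * g1))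
    have n2 : F.d g1 (u' * L.x i ^ (L.κ i (u⁻¹ * g1))) = F.d (g1 * b) (L.pr i u g1) := by
      rw [← F.d_mul (m * b) g1, hmb, ← mul_assoc (m * b) u', ← huu]
      rfl
    have n3 := F.d_tri (g1 * b) g1 (L.pr i u g1)
    rw [F.d_comm (g1 * b) g1] at n3
    omega

end Pool.Agent.Y195.SM.Coma
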