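import Pool.Agent.Y195.SM.COMA

/-! Job SM-COMX: lifting commutation with a power of a relator root. -/

set_option autoImplicit false

namespace Pool.Agent.Y195.SM.Comx

open Pool.Agent.TH54.BU Pool.Agent.Y33.SM Pool.Agent.Y195.SM.Coma

variable {G : Type} [Group G]

section gen

variable {F : GH G} {c θ T : ℕ} (L : LS F c θ T)

/-- minimality under the rotations about a line -/
theorem b1 (i : L.ι) (v g : G) (h : ∀ a : ℤ, F.len g ≤ F.len (v * L.x i ^ a * v⁻¹ * g)) :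
    L.D i v 1 g ≤ c := by
  by_contra hcon
  push Not at hcon
  have h1 := L.D_proj i v 1 g hcon
  have h2 := h (-L.s i v 1 g)
  set r := L.rt i v (-L.s i v 1 g) with hr
  have h3 := L.cl_d_le i v 1 (r * g)
  have h4 : L.D i v 1 (r * g) = 0 := by
    have : L.s i v 1 (r * g) = 0 := by rw [hr, L.cl_s_rt]; ring
    unfold LS.D
    rw [this, zpow_zero, F.len_one]
  have h5 : F.d (r * g) (L.pr i v (r * g)) = F.d g (L.pr i v g) := by
    rw [hr, L.cl_pr_rt, F.d_mul]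
  have h6 : F.len g ≤ F.len (r * g) := h2
  rw [h4, h5, F.d_one (r * g)] at h3
  rw [F.d_one g] at h1
  omega

/-- minimality under the multiplications from the right -/
theorem b2 (i : L.ι) (g : G) (h : ∀ a : ℤ, F.len g ≤ F.len (g * L.x i ^ a)) (q : G)
    (hq : F.d 1 q + F.d q g ≤ F.d 1 g + c) : L.D i g 1 q ≤ 2 * c := by
  by_contra hcon
  push Not at hcon
  have h1 := L.D_proj i g 1 q (by omega)
  have h2 := h (L.κ i (g⁻¹ * 1))
  have h3 : F.d 1 (L.pr i g 1) = F.len (g * L.x i ^ (L.κ i (g⁻¹ * 1))) := F.d_one _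
  rw [F.d_one g] at hq
  omega

theorem D_mul (i : L.ι) (g u p q : G) : L.D i (g * u) (g * p) (g * q) = L.D i u p q := by
  unfold LS.D
  rw [L.wf_s_mul]

end gen

theorem sD {F : GH G} (L : LS F 1100 234003 2) (i : L.ι) (u p q : G) (C : ℕ)
    (h : L.D i u p q ≤ C) : |L.s i u p q| ≤ 2 * (C : ℤ) := by
  have h1 := L.wf_lin_z i (L.s i u p q)
  have h2 : F.len (L.x i ^ L.s i u p q) ≤ C := h
  rw [Int.abs_eq_natAbs]
  omega

theorem core {w : GH G} {κ n : ℕ} {F : GH G} {L : LS F 1100 234003 2} {X : Set G}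
    {M : Subgroup G} (C : Ctx w κ n L X M) (i : L.ι) (j : ℤ) (hj : j ≠ 0) (hj2 : 2 * |j| ≤ n)
    (g : G) (h1 : ∀ m ∈ M, ∀ a : ℤ, F.len g ≤ F.len (m * L.x i ^ a * m⁻¹ * g))
    (h2 : ∀ a : ℤ, F.len g ≤ F.len (g * L.x i ^ a))
    (h3 : ∀ m ∈ M, F.len g ≤ F.len (m * g))
    (hmM : g * L.x i ^ j * g⁻¹ * (L.x i ^ j)⁻¹ ∈ M) : ∃ k ∈ M, ∃ l : ℤ, g = k * L.x i ^ l := by
  have hn : (10 : ℤ) ^ 12 ≤ n := by exact_mod_cast C.hn
  have hthr : L.thr = 472408 := rfl
  by_cases hgx : g ∈ Subgroup.zpowers (L.x i)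
  · obtain ⟨l, hl⟩ := hgx
    exact ⟨1, M.one_mem, l, by rw [one_mul]; exact hl.symm⟩
  set m := g * L.x i ^ j * g⁻¹ * (L.x i ^ j)⁻¹ with hm
  have hmx : m * L.x i ^ j * g = g * L.x i ^ j := by rw [hm]; group
  by_cases hm1 : m = 1
  · -- the commutator is trivial
    exfalso
    have hc : Commute (L.x i ^ j) g := by
      show L.x i ^ j * g = g * L.x i ^ j
      rw [← hmx, hm1, one_mul]
    have h4 := L.ov i i g (fun _ => hgx) (j * (10 ^ 6 : ℤ)) 0
    have h5 : g * L.x i ^ (j * (10 ^ 6 : ℤ)) = L.x i ^ (j * (10 ^ 6 : ℤ)) * g := by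
      rw [zpow_mul]
      exact (hc.zpow_left (10 ^ 6 : ℤ)).eq.symm
    rw [h5, L.shift, zpow_zero, mul_one] at h4
    have h6 : L.κ i g + j * 10 ^ 6 - L.κ i g = j * 10 ^ 6 := by ring
    rw [h6] at h4
    have h7 := L.wf_lin_z i (j * 10 ^ 6)
    have h8 : 1 ≤ j.natAbs := Int.natAbs_pos.2 hj
    rw [Int.natAbs_mul] at h7
    have h9 : ((10 : ℤ) ^ 6).natAbs = 10 ^ 6 := by norm_num
    rw [h9] at h7
    have h10 : 1 * 10 ^ 6 ≤ j.natAbs * 10 ^ 6 := Nat.mul_le_mul_right _ h8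
    omega
  -- the Greendlinger line
  obtain ⟨i', u, hgr⟩ := C.fil.gr m hmM hm1 1
  rw [mul_one, hthr] at hgr
  push_cast at hgr
  have hmg : (m * L.x i ^ j)⁻¹ * g = g * L.x i ^ (-j) := by
    rw [inv_mul_eq_iff_eq_mul, ← mul_assoc, hmx, mul_assoc, ← zpow_add]
    simp
  have hmm : (m * L.x i ^ j)⁻¹ * m = 1 * L.x i ^ (-j) := by
    rw [zpow_neg]; group
  have hsum : ∀ (i₀ : L.ι) (v : G), L.s i₀ v 1 m = L.s i₀ v 1 g + L.s i₀ v g (g * L.x i ^ j) +
      L.s i₀ ((m * L.x i ^ j)⁻¹ * v) g 1 + L.s i₀ v (m * L.x i ^ j) m := by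
    intro i₀ v
    have e : L.s i₀ ((m * L.x i ^ j)⁻¹ * v) g 1 = L.s i₀ v (g * L.x i ^ j) (m * L.x i ^ j) := by
      rw [← L.wf_s_mul i₀ (m * L.x i ^ j), mul_inv_cancel_left, hmx, mul_one]
    rw [e, L.wf_s_add, L.wf_s_add, L.wf_s_add]
  have habs4 : ∀ a b c d : ℤ, |a + b + c + d| ≤ |a| + |b| + |c| + |d| := by
    intro a b c d
    have a1 := abs_add_le (a + b + c) d
    have a2 := abs_add_le (a + b) c
    have a3 := abs_add_le a b
    linarith
  have hx0 : ∀ v : G, v = v * L.x i ^ (0 : ℤ) := by intro v; rw [zpow_zero, mul_one]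
  by_cases hmg' : m⁻¹ * g ∈ Subgroup.zpowers (L.x i)
  · obtain ⟨l, hl⟩ := hmg'
    refine ⟨m, hmM, l, ?_⟩
    have : L.x i ^ l = m⁻¹ * g := hl
    rw [this, mul_inv_cancel_left]
  have hgm' : g⁻¹ * m ∉ Subgroup.zpowers (L.x i) := by
    intro h
    apply hmg'
    have := (Subgroup.zpowers (L.x i)).inv_mem h
    rwa [mul_inv_rev, inv_inv] at this
  by_cases hcase2 : i' = i ∧ u⁻¹ * g ∈ Subgroup.zpowers (L.x i)
  · -- the line is `g <x>`
    exfalso
    obtain ⟨rfl, hu⟩ := hcase2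
    rw [L.wf_s_congr i' (QuotientGroup.eq.2 hu), hsum i' g, hmg, L.wf_s_base] at hgr
    have t1 := sD L i' g 1 g _ (b2 L i' g h2 g (by rw [F.d_self]; omega))
    have t2 : L.s i' g g (g * L.x i' ^ j) = j := by
      rw [L.az_s_line, inv_mul_cancel, L.az_kappa_one, sub_zero]
    have t3 : |L.s i' g g 1| = |L.s i' g 1 g| := by rw [L.wf_s_symm i' g 1 g, abs_neg]
    have ov := L.wf_ov (i := i') (j := i') (u := g) (w := m) (fun _ => hgm') j 0
    rw [← hx0] at ov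
    have t4 := sD L i' g (m * L.x i' ^ j) m _ ov
    have t5 := habs4 (L.s i' g 1 g) (L.s i' g g (g * L.x i' ^ j)) (L.s i' g g 1)
      (L.s i' g (m * L.x i' ^ j) m)
    rw [t3, t2] at t5
    rw [t2] at hgr
    push_cast at t1 t4
    linarith
  by_cases hcase3 : i' = i ∧ u⁻¹ * m ∈ Subgroup.zpowers (L.x i)
  · -- the line is `m <x>`
    exfalso
    obtain ⟨rfl, hu⟩ := hcase3
    rw [L.wf_s_congr i' (QuotientGroup.eq.2 hu), hsum i' m, hmm, L.wf_s_base] at hgr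
    have t1 := sD L i' m 1 g _ (b1 L i' m g (h1 m hmM))
    have t3 := sD L i' 1 1 g _ (b1 L i' 1 g (h1 1 M.one_mem))
    have ov := L.wf_ov (i := i') (j := i') (u := m) (w := g) (fun _ => hmg') 0 j
    rw [← hx0] at ov
    have t2 := sD L i' m g (g * L.x i' ^ j) _ ov
    have t4 : L.s i' m (m * L.x i' ^ j) m = -j := by
      rw [L.wf_s_symm, L.az_s_line, inv_mul_cancel, L.az_kappa_one, sub_zero]
    have t5 := habs4 (L.s i' m 1 g) (L.s i' m g (g * L.x i' ^ j)) (L.s i' 1 g 1)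
      (L.s i' m (m * L.x i' ^ j) m)
    have t6 : |L.s i' 1 g 1| = |L.s i' 1 1 g| := by rw [L.wf_s_symm i' 1 1 g, abs_neg]
    rw [t4, t6, abs_neg] at t5
    rw [t4] at hgr
    push_cast at t1 t2 t3
    linarith
  -- a third line
  exfalso
  have hc2 : i' = i → u⁻¹ * g ∉ Subgroup.zpowers (L.x i') := by
    rintro rfl h
    exact hcase2 ⟨rfl, h⟩
  have hc3 : i' = i → u⁻¹ * m ∉ Subgroup.zpowers (L.x i') := by
    rintro rfl h
    exact hcase3 ⟨rfl, h⟩
  set u' := (m * L.x i ^ j)⁻¹ * u with hu'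
  have huu : u = m * L.x i ^ j * u' := by rw [hu']; group
  set A := L.s i' u 1 g with hA
  set B := L.s i' u' 1 g with hB
  have hAs : |A| * 2 < (n : ℤ) + 4402 := by
    have := min_s C h3 i' u
    linarith
  have hBs : |B| * 2 < (n : ℤ) + 4402 := by
    have := min_s C h3 i' u'
    linarith
  have ov1 := L.wf_ov (i := i') (j := i) (u := u) (w := g) hc2 0 j
  have ov2 := L.wf_ov (i := i') (j := i) (u := u) (w := m) hc3 j 0
  rw [← hx0] at ov1 ov2
  have t1 := sD L i' u g (g * L.x i ^ j) _ ov1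
  have t2 := sD L i' u (m * L.x i ^ j) m _ ov2
  push_cast at t1 t2
  have hs := hsum i' u
  rw [← hu', L.wf_s_symm i' u' 1 g, ← hB, ← hA] at hs
  have hne : u⁻¹ * u' ∉ Subgroup.zpowers (L.x i') := by
    intro hmem
    have h6 : A = B := L.wf_s_congr i' (QuotientGroup.eq.2 hmem) 1 g
    rw [hs, h6] at hgr
    have : |B + L.s i' u g (g * L.x i ^ j) + -B + L.s i' u (m * L.x i ^ j) m| ≤
        |L.s i' u g (g * L.x i ^ j)| + |L.s i' u (m * L.x i ^ j) m| := by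
      have : B + L.s i' u g (g * L.x i ^ j) + -B + L.s i' u (m * L.x i ^ j) m =
        L.s i' u g (g * L.x i ^ j) + L.s i' u (m * L.x i ^ j) m := by ring
      rw [this]
      exact abs_add_le _ _
    linarith
  have habs : |L.s i' u 1 m| ≤ |A| + |L.s i' u g (g * L.x i ^ j)| + |B| +
      |L.s i' u (m * L.x i ^ j) m| := by
    rw [hs]
    have := habs4 A (L.s i' u g (g * L.x i ^ j)) (-B) (L.s i' u (m * L.x i ^ j) m)
    rwa [abs_neg B] at this
  have hAb : 10 ^ 11 < |A| := by linarith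
  have hBb : 10 ^ 11 < |B| := by linarith
  have hDA : 10 ^ 10 ≤ L.D i' u 1 g := by
    refine L.cl_D_ge i' u 1 g _ ?_
    rw [Int.abs_eq_natAbs] at hAb
    omega
  have hDB : 10 ^ 10 ≤ L.D i' u' 1 g := by
    refine L.cl_D_ge i' u' 1 g _ ?_
    rw [Int.abs_eq_natAbs] at hBb
    omega
  -- the length of `x ^ j`
  have hpr : ∀ v : G, 10 ^ 10 ≤ L.D i' v 1 g → L.D i g g (L.pr i' v g) ≤ 4400 := by
    intro v hv
    have p1 := L.D_proj i' v 1 g (by omega)
    have q1 := F.d_tri 1 (L.pr i' v 1) (L.pr i' v g)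
    rw [L.d_pr_pr] at q1
    rw [F.d_comm g (L.pr i' v g)] at p1
    have r1 : F.d 1 (L.pr i' v g) + F.d (L.pr i' v g) g ≤ F.d 1 g + 1100 := by omega
    have r2 := b2 L i g h2 _ r1
    have r3 := b2 L i g h2 g (by rw [F.d_self]; omega)
    have r4 := L.wf_D_tri i g g 1 (L.pr i' v g)
    rw [L.wf_D_symm i g 1 g] at r4
    omega
  have w1 := hpr u hDA
  have w2 := hpr u' hDB
  have w3 : L.D i g (g * L.x i ^ j) (m * L.x i ^ j * L.pr i' u' g) ≤ 4400 := by
    have e : L.D i g (g * L.x i ^ j) (m * L.x i ^ j * L.pr i' u' g) =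
        L.D i g g (L.pr i' u' g) := by
      have e1 := D_mul L i (m * L.x i ^ j) ((m * L.x i ^ j)⁻¹ * g) g (L.pr i' u' g)
      rw [mul_inv_cancel_left, hmx, hmg] at e1
      rw [e1]
      unfold LS.D
      rw [L.wf_s_base]
    rw [e]
    exact w2
  have w4 : L.D i g (L.pr i' u g) (m * L.x i ^ j * L.pr i' u' g) ≤ 234003 := by
    have e : m * L.x i ^ j * L.pr i' u' g = u * L.x i' ^ (L.κ i' (u'⁻¹ * g)) := by
      unfold LS.pr
      rw [← mul_assoc, ← huu]
    rw [e]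
    refine L.wf_ov (i := i) (j := i') (u := g) (w := u) ?_ _ _
    intro hii hmem
    apply hc2 hii.symm
    have := (Subgroup.zpowers (L.x i)).inv_mem hmem
    rw [mul_inv_rev, inv_inv] at this
    rw [← hii]
    exact this
  have w5 : F.len (L.x i ^ j) ≤ 242803 := by
    have e : L.D i g g (g * L.x i ^ j) = F.len (L.x i ^ j) := by
      unfold LS.D
      rw [L.az_s_line, inv_mul_cancel, L.az_kappa_one, sub_zero]
    have v1 := L.wf_D_tri i g g (L.pr i' u g) (g * L.x i ^ j)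
    have v2 := L.wf_D_tri i g (L.pr i' u g) (m * L.x i ^ j * L.pr i' u' g) (g * L.x i ^ j)
    rw [L.wf_D_symm i g (g * L.x i ^ j) (m * L.x i ^ j * L.pr i' u' g)] at v2
    omega
  have d1 : F.d g (g * L.x i ^ j) = F.len (L.x i ^ j) := by unfold GH.d; congr 1; group
  apply hne
  refine ovl2 L i' u u' g 242803 (by omega) (by rw [C.FD]; omega) (by omega)
    (by rw [C.FD]; omega) ?_ ?_
  · have n1 := near_pr L i' u g (L.κ i' (u'⁻¹ * g))
    have n2 : F.d g (u * L.x i' ^ (L.κ i' (u'⁻¹ * g))) ≤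
        F.d g (g * L.x i ^ j) + F.d (g * L.x i ^ j) (u * L.x i' ^ (L.κ i' (u'⁻¹ * g))) :=
      F.d_tri _ _ _
    have n3 : F.d (g * L.x i ^ j) (u * L.x i' ^ (L.κ i' (u'⁻¹ * g))) =
        F.d g (L.pr i' u' g) := by
      rw [← hmx, huu]
      unfold LS.pr
      rw [mul_assoc (m * L.x i ^ j) u', F.d_mul]
    omega
  · have n1 := near_pr L i' u' g (L.κ i' (u⁻¹ * g))
    have n2 : F.d g (u' * L.x i' ^ (L.κ i' (u⁻¹ * g))) = F.d (g * L.x i ^ j) (L.pr i' u g) := by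
      rw [← F.d_mul (m * L.x i ^ j) g, hmx, ← mul_assoc (m * L.x i ^ j) u', ← huu]
      rfl
    have n3 := F.d_tri (g * L.x i ^ j) g (L.pr i' u g)
    rw [F.d_comm (g * L.x i ^ j) g] at n3
    omega

theorem t : S_COMX := by
  intro G _ w κ n F L X M C i j g hj hcom
  have hN := C.fil.normal
  have hn := C.hn
  have hn0 : (0 : ℤ) < n := by omega
  -- the image of `x`
  set y : G ⧸ M := (L.x i : G ⧸ M) with hy
  have hyn : ∀ k : ℤ, y ^ ((n : ℤ) * k) = 1 := by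
    intro k
    have h1 := C.fil.rot i 1 k
    unfold LS.rt at h1
    rw [one_mul, inv_one, mul_one] at h1
    rw [hy, ← QuotientGroup.mk_zpow, QuotientGroup.eq_one_iff]
    exact h1
  -- reduction of the exponent
  obtain ⟨j', q, hj', hjq, hj0⟩ : ∃ j' q : ℤ, 2 * |j'| ≤ n ∧ j = j' + n * q ∧ j' ≠ 0 := by
    have e1 := Int.emod_add_mul_ediv j n
    have e2 := Int.emod_nonneg j hn0.ne'
    have e3 := Int.emod_lt_of_pos j hn0
    have e4 : j % n ≠ 0 := fun h0 => hj (Int.dvd_of_emod_eq_zero h0)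
    by_cases h : 2 * (j % n) ≤ n
    · exact ⟨j % n, j / n, by rw [abs_of_nonneg e2]; exact h, e1.symm, e4⟩
    · refine ⟨j % n - n, j / n + 1, ?_, by linarith, by omega⟩
      rw [abs_of_nonpos (by omega)]
      omega
  have hyj : y ^ j = y ^ j' := by
    rw [hjq, zpow_add, hyn, mul_one]
  have hcomQ : y ^ j' * (g : G ⧸ M) = (g : G ⧸ M) * y ^ j' := by
    rw [← hyj]
    have h1 := (QuotientGroup.eq_one_iff (N := M) _).2 hcom
    simp only [QuotientGroup.mk_mul, QuotientGroup.mk_inv, QuotientGroup.mk_zpow] at h1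
    rw [mul_inv_eq_one, mul_inv_eq_iff_eq_mul] at h1
    exact h1
  obtain ⟨h, ⟨a, b, hab⟩, hmin⟩ := cl_min
    (fun h : G => ∃ a b : ℤ, (h : G ⧸ M) = y ^ a * (g : G ⧸ M) * y ^ b) (fun h => F.len h)
    ⟨g, 0, 0, by simp⟩
  have hyy : ∀ a b : ℤ, y ^ a * y ^ b = y ^ b * y ^ a := fun a b => by
    rw [← zpow_add, ← zpow_add, add_comm]
  have hhc : (h : G ⧸ M) * y ^ j' = y ^ j' * (h : G ⧸ M) := by
    rw [hab]
    calc y ^ a * (g : G ⧸ M) * y ^ b * y ^ j' = y ^ a * (g : G ⧸ M) * (y ^ b * y ^ j') := by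
          rw [mul_assoc]
      _ = y ^ a * ((g : G ⧸ M) * y ^ j') * y ^ b := by
          rw [hyy]; simp only [mul_assoc]
      _ = y ^ a * (y ^ j' * (g : G ⧸ M)) * y ^ b := by rw [hcomQ]
      _ = (y ^ a * y ^ j') * (g : G ⧸ M) * y ^ b := by simp only [mul_assoc]
      _ = y ^ j' * (y ^ a * (g : G ⧸ M) * y ^ b) := by rw [hyy]; simp only [mul_assoc]
  have hM1 : ∀ m ∈ M, ((m : G) : G ⧸ M) = 1 := fun m hm => (QuotientGroup.eq_one_iff m).2 hm
  obtain ⟨k, hk, l, hl⟩ := core C i j' hj0 hj' h (by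
      intro m hm e
      refine hmin _ ⟨e + a, b, ?_⟩
      simp only [QuotientGroup.mk_mul, QuotientGroup.mk_inv, QuotientGroup.mk_zpow, hM1 m hm,
        one_mul, inv_one, mul_one]
      rw [hab, zpow_add]
      simp only [mul_assoc]
      rfl) (by
      intro e
      refine hmin _ ⟨a, b + e, ?_⟩
      rw [QuotientGroup.mk_mul, QuotientGroup.mk_zpow, hab, zpow_add]
      simp only [mul_assoc]
      rfl) (by
      intro m hm
      refine hmin _ ⟨a, b, ?_⟩
      rw [QuotientGroup.mk_mul, hM1 m hm, one_mul, hab]) (by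
      rw [← QuotientGroup.eq_one_iff (N := M)]
      simp only [QuotientGroup.mk_mul, QuotientGroup.mk_inv, QuotientGroup.mk_zpow]
      rw [mul_inv_eq_one, mul_inv_eq_iff_eq_mul]
      exact hhc)
  -- conclusion in the quotient
  have hfin : (g : G ⧸ M) = y ^ (-a + l - b) := by
    have h1 : (h : G ⧸ M) = y ^ l := by
      rw [hl, QuotientGroup.mk_mul, hM1 k hk, one_mul, QuotientGroup.mk_zpow]
    have h2 : (g : G ⧸ M) = (y ^ a)⁻¹ * (y ^ a * (g : G ⧸ M) * y ^ b) * (y ^ b)⁻¹ := by group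
    rw [h2, ← hab, h1, ← zpow_neg, ← zpow_neg, ← zpow_add, ← zpow_add]
    congr 1
  refine ⟨g * (L.x i ^ (-a + l - b))⁻¹, ?_, -a + l - b, by rw [inv_mul_cancel_right]⟩
  rw [← QuotientGroup.eq_one_iff (N := M), QuotientGroup.mk_mul, QuotientGroup.mk_inv,
    QuotientGroup.mk_zpow, hfin]
  exact mul_inv_cancel _

end Pool.Agent.Y195.SM.Comx
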