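import Pool.Agent.Y33.SM.Stm
import Pool.Agent.TH54.BU.Angle
import Pool.Agent.TH54.BU.FamLS

/-! Job SM-TOR: torsion of the quotient. -/

set_option autoImplicit false

namespace Pool.Agent.Y195.SM

open Pool.Agent.TH54.BU Pool.Agent.Y33.SM

/-- a long displacement of the powers of a short element forces the element to be conjugate to a
power -/
theorem short_of_long {G : Type} [Group G] {w : GH G} {κ n : ℕ} {F : GH G}
    {L : LS F 1100 234003 2} {X : Set G} {M : Subgroup G} (C : Ctx w κ n L X M)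
    {y : G} (hy : ¬ IsOfFinOrder y) (hsup : F.Sup 100 y) (hlen : F.len y ≤ 1000)
    (i : L.ι) (u : G) (m : ℕ) (h : 10 ^ 8 < |L.s i u 1 (y ^ m)|) : L.Short y := by
  obtain ⟨T0, hT0⟩ := C.stab
  obtain ⟨κ', -, -, -, hqc⟩ := F.exists_pax hy hsup hlen
  rw [C.FD] at hqc
  have hproj : ∀ (g h : G), 11050 < F.len (L.x i ^ (L.κ i g - L.κ i h)) →
      F.d g (L.x i ^ L.κ i g) + F.len (L.x i ^ (L.κ i g - L.κ i h)) + F.d h (L.x i ^ L.κ i h) ≤
        F.d g h + 11050 := by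
    intro g h hgh
    have := L.proj i g h (by omega)
    omega
  have hlin : (L.s i u 1 (y ^ m)).natAbs ≤ 2 * F.len (L.x i ^ (L.s i u 1 (y ^ m))) :=
    L.wf_lin_z i _
  have hbig : 10 ^ 8 < (L.s i u 1 (y ^ m)).natAbs := by
    rw [Int.abs_eq_natAbs] at h
    exact_mod_cast h
  have hcomm := Fls.ovl F (K := 500) (B := 12003) (T := T0) (by rw [C.FD]) hT0 C.acy
    (x := L.x i) (y := y) (u := u⁻¹) (c := 11050) (L1 := 1100) (L.xlen i) (by omega)
    (κ := L.κ i) hproj (fun a b p hp => by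
      obtain ⟨k, hk⟩ := hqc a b p hp
      exact ⟨k, by omega⟩) (m : ℤ) 0 (by
      rw [C.FD, zpow_natCast, zpow_zero]
      have e : L.κ i (u⁻¹ * y ^ m) - L.κ i (u⁻¹ * 1) = L.s i u 1 (y ^ m) := rfl
      rw [e]
      omega)
  obtain ⟨k, hk⟩ := (C.prim _ (C.mem i)).2 _ hcomm.symm
  have hk' : L.x i ^ k = u⁻¹ * y * u⁻¹⁻¹ := hk
  refine ⟨i, u, k, ?_⟩
  rw [hk']
  group

theorem t : S_TOR := by
  intro G _ w κ n F L X M C z m hm hzm
  have hN := C.fil.normal
  obtain ⟨T0, hT0⟩ := C.stab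
  classical
  have hex : ∃ k : ℕ, ∃ m0 ∈ M, ∃ u : G, F.len (u⁻¹ * (m0 * z) * u) = k :=
    ⟨_, 1, M.one_mem, 1, rfl⟩
  obtain ⟨m0, hm0, u, hk⟩ := Nat.find_spec hex
  have hmin : ∀ m1 ∈ M, ∀ u' : G,
      F.len (u⁻¹ * (m0 * z) * u) ≤ F.len (u'⁻¹ * (m1 * z) * u') := by
    intro m1 h1 u'
    rw [hk]
    exact Nat.find_min' hex ⟨m1, h1, u', rfl⟩
  set z' := u⁻¹ * (m0 * z) * u with hz'
  have hzz' : m0 * z = u * z' * u⁻¹ := by rw [hz']; group
  have hzM : ∀ m ∈ M, ∀ v : G, F.len z' ≤ F.len (v⁻¹ * (m * z') * v) := by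
    intro m1 h1 v
    have h2 := hmin (u * m1 * u⁻¹ * m0) (M.mul_mem (hN.conj_mem m1 h1 u) hm0) (u * v)
    rwa [show (u * v)⁻¹ * (u * m1 * u⁻¹ * m0 * z) * (u * v) = v⁻¹ * (m1 * z') * v by
      rw [hz']; group] at h2
  have hkM : z⁻¹ * m0 * z ∈ M := by
    have := hN.conj_mem m0 hm0 z⁻¹
    rwa [inv_inv] at this
  have hzk : z * (z⁻¹ * m0 * z) = u * z' * u⁻¹ := by rw [← hzz']; group
  by_cases hf : IsOfFinOrder z'
  · refine ⟨_, hkM, Or.inl ?_⟩
    rw [hzk]
    have := (MulAut.conj u).toMonoidHom.isOfFinOrder hf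
    simpa using this
  by_cases hs : L.Short z'
  · obtain ⟨i, v, k, hv⟩ := hs
    refine ⟨_, hkM, Or.inr ⟨u * v, i, k, ?_⟩⟩
    rw [hzk, hv]; group
  exfalso
  -- powers in `M`
  have hpow : z' ^ m ∈ M := by
    have h1 : (m0 * z) ^ m ∈ M := by
      rw [← QuotientGroup.eq_one_iff (N := M), QuotientGroup.mk_pow, QuotientGroup.mk_mul,
        (QuotientGroup.eq_one_iff (N := M) m0).2 hm0, one_mul, ← QuotientGroup.mk_pow,
        QuotientGroup.eq_one_iff]
      exact hzm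
    have h2 : z' ^ m = u⁻¹ * (m0 * z) ^ m * u⁻¹⁻¹ := by
      have := conj_pow (a := u⁻¹) (b := m0 * z) (i := m)
      rw [← this, hz', inv_inv]
    rw [h2]
    exact hN.conj_mem _ h1 _
  have hne : z' ^ m ≠ 1 := by
    intro h1
    exact hf (isOfFinOrder_iff_pow_eq_one.2 ⟨m, hm, h1⟩)
  have hthr : L.thr = 472408 := rfl
  have hn := C.hn
  by_cases hl : 20 ≤ F.len z'
  · -- long elements
    obtain ⟨i, v, hgr⟩ := C.fil.gr _ hpow hne 1
    rw [mul_one, hthr] at hgr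
    have hang := L.angle (n := n) C.fil.rot hzM (by rw [C.FD]; omega) hs
      (by rw [C.FD]; omega) i v 0 m
    rw [zpow_zero, zpow_natCast, C.FD] at hang
    push_cast at hang hgr
    have hn' : (10 : ℤ) ^ 12 ≤ n := by exact_mod_cast hn
    linarith
  · -- short elements
    obtain ⟨v, hv⟩ := F.axial hT0 hf
    rw [C.FD] at hv
    set y := v⁻¹ * z' * v with hy
    have hyl : F.len y ≤ F.len z' + 100 := by
      have := Fls.len_root F (k := 1) (z := z') (x := z') (u := v) one_ne_zero (by rw [zpow_one]) hv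
      exact this
    have hyz : y = v⁻¹ * z' * v⁻¹⁻¹ := by rw [hy, inv_inv]
    have hyf : ¬ IsOfFinOrder y := by
      intro h1
      apply hf
      have := (MulAut.conj v).toMonoidHom.isOfFinOrder h1
      have e : (MulAut.conj v).toMonoidHom y = z' := by
        simp [hy, mul_assoc]
      rwa [e] at this
    have hyM : y ^ m ∈ M := by
      rw [hyz, conj_pow]
      exact hN.conj_mem _ hpow _
    have hyne : y ^ m ≠ 1 := by
      intro h1
      exact hyf (isOfFinOrder_iff_pow_eq_one.2 ⟨m, hm, h1⟩)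
    obtain ⟨i, p, hgr⟩ := C.fil.gr _ hyM hyne 1
    rw [mul_one, hthr] at hgr
    push_cast at hgr
    have hn' : (10 : ℤ) ^ 12 ≤ n := by exact_mod_cast hn
    obtain ⟨j, q, k, hq⟩ := short_of_long C hyf hv (by omega) i p m (by linarith)
    apply hs
    refine ⟨j, v * q, k, ?_⟩
    have : z' = v * y * v⁻¹ := by rw [hy]; group
    rw [this, hq]
    group

end Pool.Agent.Y195.SM
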